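import Mathlib
import Pool.Agent.Lib.helper17.CFGDer

set_option autoImplicit false

namespace Pool.Agent.Results.MP_709eaf_lc.Mix

open H17Der

/-- `Shuffle a u v`: `v` arises from `u` by inserting the letters of `a`, in their order. -/
inductive Shuffle {A : Type} : List A → List A → List A → Prop
  | nil : Shuffle [] [] []
  | ins (x : A) {a u v : List A} : Shuffle a u v → Shuffle (x :: a) u (x :: v)
  | keep (x : A) {a u v : List A} : Shuffle a u v → Shuffle a (x :: u) (x :: v)

def Step {A : Type} (I : Finset (List A)) (u v : List A) : Prop := ∃ a ∈ I, Shuffle a u v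

def Star {A : Type} (I : Finset (List A)) : List A → List A → Prop :=
  Relation.ReflTransGen (Step I)

def L {A : Type} (I : Finset (List A)) : Language A := {u | Star I [] u}

def Wqo {A : Type} (I : Finset (List A)) : Prop :=
  ∀ f : ℕ → List A, (∀ n, f n ∈ L I) → ∃ i j, i < j ∧ Star I (f i) (f j)

variable {A : Type}

lemma Shuffle.symm {a u v : List A} (h : Shuffle a u v) : Shuffle u a v := by
  induction h with
  | nil => exact .nil
  | ins x _ ih => exact .keep x ih
  | keep x _ ih => exact .ins x ih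

lemma Shuffle.count [DecidableEq A] {a u v : List A} (h : Shuffle a u v) (c : A) :
    v.count c = a.count c + u.count c := by
  induction h with
  | nil => rfl
  | ins x _ ih => simp only [List.count_cons, ih]; omega
  | keep x _ ih => simp only [List.count_cons, ih]; omega

lemma Shuffle.len {a u v : List A} (h : Shuffle a u v) : v.length = a.length + u.length := by
  induction h with
  | nil => rfl
  | ins x _ ih => simp only [List.length_cons, ih]; omega
  | keep x _ ih => simp only [List.length_cons, ih]; omega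

lemma Shuffle.eq {a u v : List A} (h : Shuffle a u v) (e : a = []) : u = v := by
  induction h with
  | nil => rfl
  | ins x _ ih => cases e
  | keep x _ ih => rw [ih e]

lemma Shuffle.assoc {d u v : List A} (h : Shuffle d u v) :
    ∀ p d', Shuffle p d' d → ∃ u', Shuffle d' u u' ∧ Shuffle p u' v := by
  induction h with
  | nil => intro p d' h; cases h; exact ⟨[], .nil, .nil⟩
  | ins x _ ih =>
    intro p d' h
    cases h with
    | ins _ h => obtain ⟨u', a, b⟩ := ih _ _ h; exact ⟨u', a, .ins x b⟩
    | keep _ h => obtain ⟨u', a, b⟩ := ih _ _ h; exact ⟨_, .ins x a, .keep x b⟩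
  | keep x _ ih =>
    intro p d' h
    obtain ⟨u', a, b⟩ := ih _ _ h
    exact ⟨_, .keep x a, .keep x b⟩

lemma of_sublist {p d : List A} (h : p.Sublist d) : ∃ d', Shuffle p d' d := by
  induction h with
  | slnil => exact ⟨[], .nil⟩
  | cons x _ ih => obtain ⟨d', h⟩ := ih; exact ⟨_, .keep x h⟩
  | cons_cons x _ ih => obtain ⟨d', h⟩ := ih; exact ⟨_, .ins x h⟩

def I : Finset (List (Fin 3)) := {[0, 1, 2], [0, 2, 1], [1, 0, 2], [1, 2, 0], [2, 0, 1], [2, 1, 0]}

def Bal (w : List (Fin 3)) : Prop := w.count 0 = w.count 1 ∧ w.count 1 = w.count 2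

lemma len3 (w : List (Fin 3)) : w.length = w.count 0 + w.count 1 + w.count 2 := by
  induction w with
  | nil => rfl
  | cons x w ih => fin_cases x <;> simp [ih] <;> omega

lemma memI {p : List (Fin 3)} (h : p.Perm [0, 1, 2]) : p ∈ I := by
  have : ∀ p ∈ ([0, 1, 2] : List (Fin 3)).permutations', p ∈ I := by decide
  exact this p (List.mem_permutations'.2 h)

lemma balI : ∀ p ∈ I, Bal p := by unfold Bal; decide

lemma star (n : ℕ) : ∀ d u v : List (Fin 3), d.length ≤ n → Bal d → Shuffle d u v →
    Star I u v := by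
  induction n with
  | zero =>
    intro d u v h _ s
    rw [s.eq (List.length_eq_zero_iff.1 (by omega))]
    exact .refl
  | succ n ih =>
    intro d u v h b s
    by_cases e : d.length ≤ n
    · exact ih d u v e b s
    have l := len3 d
    obtain ⟨b1, b2⟩ := b
    have : ([0, 1, 2] : List (Fin 3)).Subperm d := List.Nodup.subperm (by decide) fun x hx => by
      rw [← List.count_pos_iff]
      simp only [List.mem_cons, List.not_mem_nil, or_false] at hx
      rcases hx with rfl | rfl | rfl <;> omega
    obtain ⟨p, hp, hs⟩ := this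
    obtain ⟨d', hd⟩ := of_sublist hs
    obtain ⟨u', a1, a2⟩ := s.assoc _ _ hd
    have := hd.len
    have := hp.length_eq
    obtain ⟨c1, c2⟩ := balI p (memI hp)
    have := hd.count 0
    have := hd.count 1
    have := hd.count 2
    exact (ih d' u u' (by simp at *; omega) ⟨by omega, by omega⟩ a1).tail ⟨p, memI hp, a2⟩

lemma memL (w : List (Fin 3)) : w ∈ L I ↔ Bal w := by
  constructor
  · intro h
    induction h with
    | refl => exact ⟨rfl, rfl⟩
    | tail _ s ih =>
      obtain ⟨p, hp, s⟩ := s
      obtain ⟨c1, c2⟩ := balI p hp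
      obtain ⟨c3, c4⟩ := ih
      have := s.count 0
      have := s.count 1
      have := s.count 2
      exact ⟨by omega, by omega⟩
  · intro h
    obtain ⟨d, hd⟩ := of_sublist (List.nil_sublist w)
    obtain rfl := hd.eq rfl
    exact star _ _ _ _ le_rfl h hd.symm

lemma sub {T N : Type} {P : Set (ContextFreeRule T N)} {m l : ℕ} (hl : 0 < l)
    (hm : ∀ r ∈ P, r.output.length ≤ m) {s : List (Symbol T N)} {w : List T} (h : Der P s w) :
    s.length * l < w.length → ∃ B x y z, w = x ++ y ++ z ∧ Der P [.nonterminal B] y ∧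
      l < y.length ∧ y.length ≤ m * l ∧
      ∀ y', Der P [.nonterminal B] y' → Der P s (x ++ y' ++ z) := by
  induction h with
  | nil => simp
  | term t _ ih =>
    intro h
    simp only [List.length_cons, Nat.succ_mul] at h
    obtain ⟨B, x, y, z, rfl, a1, a2, a3, a4⟩ := ih (by omega)
    exact ⟨B, t :: x, y, z, rfl, a1, a2, a3, fun y' hy => .term t (a4 y' hy)⟩
  | @nt r s u w hr h1 h2 ih1 ih2 =>
    intro h
    simp only [List.length_cons, Nat.succ_mul, List.length_append] at h
    by_cases c : u.length ≤ l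
    · obtain ⟨B, x, y, z, rfl, a1, a2, a3, a4⟩ := ih2 (by omega)
      exact ⟨B, u ++ x, y, z, by simp, a1, a2, a3, fun y' hy => by
        simpa using Der.nt r hr h1 (a4 y' hy)⟩
    by_cases c' : u.length ≤ m * l
    · exact ⟨r.input, [], u, w, rfl, der_one.2 ⟨r, hr, rfl, h1⟩, by omega, c',
        fun y' hy => hy.append h2⟩
    · have := Nat.mul_le_mul_right l (hm r hr)
      obtain ⟨B, x, y, z, rfl, a1, a2, a3, a4⟩ := ih1 (by omega)
      exact ⟨B, x, y, z ++ w, by simp, a1, a2, a3, fun y' hy => by
        simpa using Der.nt r hr (a4 y' hy) h2⟩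

lemma notCF : ¬ (L I).IsContextFree := by
  classical
  rintro ⟨g, hg⟩
  have hL : ∀ w, Der (↑g.rules) [Symbol.nonterminal g.initial] w ↔ Bal w := fun w => by
    rw [← mem_language_iff_der, hg, memL]
  let f : g.NT → List (Fin 3) := fun B =>
    if h : ∃ y, Der (↑g.rules) [Symbol.nonterminal B] y then h.choose else []
  obtain ⟨C, hC⟩ : ∃ C, ∀ r ∈ g.rules, (f r.input).length ≤ C :=
    ⟨_, fun r hr => Finset.le_sup (f := fun r : ContextFreeRule _ _ => (f r.input).length) hr⟩
  obtain ⟨m, hm⟩ : ∃ m, ∀ r ∈ g.rules, r.output.length ≤ m :=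
    ⟨_, fun r hr => Finset.le_sup (f := fun r : ContextFreeRule _ _ => r.output.length) hr⟩
  obtain ⟨n, n1, n2⟩ : ∃ n, 2 * C + 1 < n ∧ m * (2 * C + 1) < n :=
    ⟨2 * C + 1 + m * (2 * C + 1) + 1, by omega, by omega⟩
  let w : List (Fin 3) := List.replicate n 0 ++ List.replicate n 1 ++ List.replicate n 2
  have c1 : w.count 1 = n := by simp [w, List.count_replicate]
  have hw : Bal w := by simp [w, Bal, List.count_replicate]
  have so : w.Pairwise (· ≤ ·) := by
    simp only [w, List.pairwise_append, List.pairwise_replicate, List.mem_append,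
      List.mem_replicate]
    refine ⟨⟨by simp, by simp, ?_⟩, by simp, ?_⟩
    · rintro _ ⟨-, rfl⟩ _ ⟨-, rfl⟩; decide
    · rintro _ (⟨-, rfl⟩ | ⟨-, rfl⟩) _ ⟨-, rfl⟩ <;> decide
  obtain ⟨B, x, y, z, e, a1, a2, a3, a4⟩ := sub (l := 2 * C + 1) (by omega) hm ((hL w).2 hw)
    (by simp [w]; omega)
  rw [e] at c1 hw so
  have hy : Der (↑g.rules) [Symbol.nonterminal B] (f B) := by
    simp only [f, dif_pos (⟨y, a1⟩ : ∃ y, _)]
    exact Exists.choose_spec (⟨y, a1⟩ : ∃ y, _)
  have b := (hL _).1 (a4 _ hy)
  obtain ⟨r, hr, rfl, -⟩ := der_one.1 a1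
  have := hC r hr
  have := len3 y
  have := len3 (f r.input)
  simp only [Bal, List.count_append] at b hw c1
  simp only [List.pairwise_append, List.mem_append] at so
  have y0 : 0 ∈ y := by rw [← List.count_pos_iff]; omega
  have y2 : 2 ∈ y := by rw [← List.count_pos_iff]; omega
  have : x.count 1 = 0 := List.count_eq_zero.2 fun h => absurd (so.1.2.2 _ h _ y0) (by decide)
  have : z.count 1 = 0 :=
    List.count_eq_zero.2 fun h => absurd (so.2.2 _ (Or.inr y2) _ h) (by decide)
  omega

theorem result : ∃ I : Finset (List (Fin 3)), [] ∉ I ∧ Wqo I ∧ ¬ (L I).IsContextFree := by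
  refine ⟨I, by decide, fun f hf => ?_, notCF⟩
  obtain ⟨i, j, h, s⟩ := (Set.PartiallyWellOrderedOn.partiallyWellOrderedOn_sublistForall₂
    (α := Fin 3) (· = ·) (s := Set.univ) Set.finite_univ.partiallyWellOrderedOn).exists_lt
    (f := f) (by simp)
  obtain ⟨l, e, s⟩ := List.sublistForall₂_iff.1 s
  obtain rfl : f i = l := by simpa using e
  obtain ⟨d, hd⟩ := of_sublist s
  obtain ⟨a1, a2⟩ := (memL _).1 (hf i)
  obtain ⟨a3, a4⟩ := (memL _).1 (hf j)
  have := hd.count 0
  have := hd.count 1
  have := hd.count 2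
  exact ⟨i, j, h, star _ d _ _ le_rfl ⟨by omega, by omega⟩ hd.symm⟩

end Pool.Agent.Results.MP_709eaf_lc.Mix
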